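import Mathlib
import Pool.Agent.X199.ChoqD

set_option autoImplicit false

namespace Pool.Agent.Results.MP_06f7ba_an.CountableGroups

open MeasureTheory Filter Topology BoundedContinuousFunction Pool.Agent.X199.Choq

attribute [local instance] msC

/-- **Invariant indicator elements for Choquet decompositions, countable abelian groups.**
`VC Γ` is the space of linear functionals on the bounded complex functions of the discrete group `Γ`, `IMC Γ` the set
of invariant means, `MC Γ` the same set as a type, `EMC Γ` the set of its extreme points; `MC Γ` carries the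
sigma-algebra `msC Γ` generated by `EMC Γ` and by the evaluations `ν ↦ Re ν(f)`. If `σ` is a probability measure with
`σ (EMC Γ) = 1` which represents `m`, and `E` is measurable, there are sets `C n ⊆ Γ` whose indicator functions form a
Cauchy sequence for the `L²(m)` distance, whose limit `w` is invariant under all translations and satisfies
`m (f w) = ∫_E ν f dσ(ν)` for all bounded `f`. -/
theorem result (Γ : Type) [AddCommGroup Γ] [Countable Γ] [TopologicalSpace Γ] [DiscreteTopology Γ]
    (m : VC Γ) (hm : m ∈ IMC Γ) (σ : Measure (MC Γ)) (_hprob : IsProbabilityMeasure σ)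
    (hσ : σ (EMC Γ) = 1) (hdec : ∀ f : Γ →ᵇ ℂ, m f = ∫ ν, ν.1 f ∂σ)
    (E : Set (MC Γ)) (hE : MeasurableSet E) :
    ∃ C : ℕ → Set Γ,
      (∀ ε > 0, ∃ N, ∀ i ≥ N, ∀ j ≥ N,
        ‖m ((indC (C i) - indC (C j)) * star (indC (C i) - indC (C j)))‖ < ε) ∧
      (∀ γ : Γ, Tendsto (fun n =>
        m ((trC γ (indC (C n)) - indC (C n)) * star (trC γ (indC (C n)) - indC (C n))))
          atTop (𝓝 0)) ∧
      ∀ f : Γ →ᵇ ℂ, Tendsto (fun n => m (f * indC (C n))) atTop (𝓝 (∫ ν in E, ν.1 f ∂σ)) :=
  mainC σ hσ m hm hdec E hE

end Pool.Agent.Results.MP_06f7ba_an.CountableGroups
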